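import Pool.Agent.H589Z.CS.Force
import Pool.Agent.H589Z.ZA
import Pool.Agent.H589Z.ZB

/-!
# MP_820503_lc: the Borel conjecture is consistent with the existence of a B-set

A countable support iteration of Laver type forcing notions (Laver trees whose successor sets are
positive for an ideal of slalom creatures) forces two combinatorial principles; together they
imply the Borel conjecture and the existence of a B-set.
-/

namespace Pool.Agent.Results.MP_820503_lc.ABorelAndBSet

open Pool.Agent.H589Z.BSet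

theorem result :
    (∃ (P : Type) (_ : Preorder P) (I : Type) (_ : LinearOrder I) (b : ℕ → ℕ)
      (g : I → ℕ → ℕ × Finset ℕ → Set P), Nonempty P ∧ (∀ i, 0 < b i) ∧
        ∀ p : P, p ∈ ForcedA P ∧ p ∈ ForcedB b g) ∧
    (∀ (I : Type) [LinearOrder I] (b : ℕ → ℕ) (g : I → ℕ → ℕ × Finset ℕ), (∀ i, 0 < b i) →
      PrinA → PrinB b g → BorelConjecture ∧ ∃ E, IsBSet E) :=
  ⟨⟨_, inferInstance, _, inferInstance, _, _, inferInstance, Pool.Agent.H589Z.CS.bb_pos,
    fun p => ⟨Pool.Agent.H589Z.CS.forcedA p, Pool.Agent.H589Z.CS.forcedB p⟩⟩,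
    fun _ _ b g hb hA hB => ⟨bc_of_prinA hA, bset_of_prinB b hb g hB⟩⟩

end Pool.Agent.Results.MP_820503_lc.ABorelAndBSet
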